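import Pool.Agent.H541.FF.Seq

set_option autoImplicit false

/-!
Irreducibility of the Lucas polynomials of the first kind over finite fields.
-/

namespace Pool.Agent.H541.FF

open Polynomial

/-- a product of two nonconstant polynomials is reducible -/
lemma not_irr_mul {K : Type*} [Field K] (f g : K[X]) (hf : 1 ≤ f.natDegree) (hg : 1 ≤ g.natDegree) :
    ¬ Irreducible (f * g) := by
  intro h
  rcases h.isUnit_or_isUnit rfl with h1 | h1
  · rw [Polynomial.natDegree_eq_zero_of_isUnit h1] at hf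
    omega
  · rw [Polynomial.natDegree_eq_zero_of_isUnit h1] at hg
    omega

lemma not_irr_dvd {K : Type*} [Field K] (f g : K[X]) (hfg : f ∣ g) (hg0 : g ≠ 0) (hf : 1 ≤ f.natDegree)
    (hg : f.natDegree < g.natDegree) : ¬ Irreducible g := by
  obtain ⟨h, rfl⟩ := hfg
  have hf0 : f ≠ 0 := left_ne_zero_of_mul hg0
  have hh0 : h ≠ 0 := right_ne_zero_of_mul hg0
  rw [natDegree_mul hf0 hh0] at hg
  exact not_irr_mul f h hf (by omega)

section red

variable {K : Type*} [Field K] (Q : K)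

/-- composite indices -/
lemma U_comp (n : ℕ) (hn : 3 ≤ n) (h : Irreducible (U Q n)) : n.Prime := by
  by_contra hnp
  obtain ⟨a, b, ha, hb, hab⟩ : ∃ a b, 2 ≤ a ∧ 2 ≤ b ∧ n = a * b := by
    obtain ⟨a, ⟨b, hab⟩, h1, h2⟩ := Nat.exists_dvd_of_not_prime2 (by omega) hnp
    refine ⟨a, b, h1, ?_, hab⟩
    by_contra hb
    have : b = 0 ∨ b = 1 := by omega
    rcases this with rfl | rfl <;> omega
  obtain ⟨a', rfl⟩ : ∃ a', a = a' + 1 := ⟨a - 1, by omega⟩
  obtain ⟨n', rfl⟩ : ∃ n', n = n' + 1 := ⟨n - 1, by omega⟩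
  refine not_irr_dvd (U Q (a' + 1)) _ (hab ▸ U_dvd Q (a' + 1) b) (U_deg Q n').1.ne_zero ?_ ?_ h
  · rw [(U_deg Q a').2]; omega
  · rw [(U_deg Q a').2, (U_deg Q n').2]
    nlinarith

/-- square parameters -/
lemma U_sq (n : ℕ) (hn : 3 ≤ n) (hQ : IsSquare Q) : ¬ Irreducible (U Q n) := by
  intro h
  have hp := U_comp Q n hn h
  have hodd : n % 2 = 1 := hp.eq_two_or_odd.resolve_left (by omega)
  obtain ⟨m, rfl⟩ : ∃ m, n = 2 * (m + 1) + 1 := ⟨n / 2 - 1, by omega⟩
  obtain ⟨s, rfl⟩ := hQ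
  rw [U_odd, show U (s * s) (m + 1 + 1) ^ 2 - C (s * s) * U (s * s) (m + 1) ^ 2 =
    (U (s * s) (m + 1 + 1) - C s * U (s * s) (m + 1)) *
      (U (s * s) (m + 1 + 1) + C s * U (s * s) (m + 1)) by rw [C_mul]; ring] at h
  have h1 := U_deg (s * s) (m + 1)
  have h2 := U_deg (s * s) m
  have h3 : (C s * U (s * s) (m + 1)).natDegree < (U (s * s) (m + 1 + 1)).natDegree := by
    rw [h1.2]
    exact ((natDegree_C_mul_le _ _).trans h2.2.le).trans_lt (by omega)
  refine not_irr_mul _ _ ?_ ?_ h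
  · rw [natDegree_sub_eq_left_of_natDegree_lt h3, h1.2]; omega
  · rw [natDegree_add_eq_left_of_natDegree_lt h3, h1.2]; omega

end red

section fin

variable {K : Type*} [Field K] [Finite K]

/-- the degree of an algebraic element in terms of the Frobenius map -/
lemma deg_dvd_iff {L : Type*} [Field L] [Algebra K L] [Algebra.IsAlgebraic K L] (x : L) (d : ℕ) :
    (minpoly K x).natDegree ∣ d ↔ x ^ Nat.card K ^ d = x := by
  have hx : IsIntegral K x := Algebra.IsIntegral.isIntegral x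
  rw [(minpoly.irreducible hx).natDegree_dvd_iff_dvd_X_pow_card_pow_sub_X, minpoly.dvd_iff]
  simp [sub_eq_zero]

/-- the square root of a nonsquare -/
lemma sqrt_frob {L : Type*} [Field L] [Algebra K L] [Algebra.IsAlgebraic K L] (Q : K) (hQ : ¬ IsSquare Q)
    (s : L) (hs : s ^ 2 = algebraMap K L Q) (d : ℕ) : s ^ Nat.card K ^ d = (-1) ^ d * s := by
  classical
  haveI := Fintype.ofFinite K
  have hq : s ^ Nat.card K = -s := by
    have h1 : (s ^ Nat.card K) ^ 2 = s ^ 2 := by
      rw [← pow_mul, mul_comm, pow_mul, hs, ← map_pow, ← Fintype.card_eq_nat_card, FiniteField.pow_card]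
    rcases sq_eq_sq_iff_eq_or_eq_neg.1 h1 with h | h
    · exfalso
      have h2 := (deg_dvd_iff (K := K) s 1).2 (by rw [pow_one]; exact h)
      rw [Nat.dvd_one, minpoly.natDegree_eq_one_iff] at h2
      obtain ⟨t, ht⟩ := h2
      apply hQ
      refine ⟨t, ?_⟩
      apply (algebraMap K L).injective
      rw [← hs, ← ht, map_mul]
      ring
    · exact h
  have hodd : Odd (Nat.card K) := by
    rw [← Nat.not_even_iff_odd]
    intro he
    apply hQ
    apply FiniteField.isSquare_of_char_two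
    rw [FiniteField.even_card_iff_char_two, Fintype.card_eq_nat_card]
    exact Nat.even_iff.1 he
  induction d with
  | zero => simp
  | succ d ih =>
    rw [pow_succ, pow_mul, ih, mul_pow, hq, ← pow_mul, pow_succ, mul_comm d, pow_mul,
      hodd.neg_one_pow]
    ring

end fin

end Pool.Agent.H541.FF
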