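import Pool.Graph.R_pool_sql_team_seeded_3997aac3.Q84.AR6

set_option autoImplicit false

/-!
Primes `n ≡ 3 (mod 4)` without small odd prime factors of `n - 1` for which all the primes of a given
finite set outside of a fixed finite set generate the group of the units modulo `± 1`.
-/

namespace Pool.Agent.H541.FF

open Finset Pool.Agent.Y855 Pool.Agent.Q84.AR

/-- the size of a finite set of rational numbers -/
def siz (U : Finset ℚˣ) : ℕ := ∑ u ∈ U, (u : ℚ).num.natAbs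

/-- the condition on the primes -/
def Gd (U : Finset ℚˣ) (p : ℕ) : Prop :=
  p % 4 = 3 ∧ ∀ q : ℕ, q.Prime → 3 ≤ q → q ≤ siz U → ¬ q ∣ p - 1

lemma Gd_mono (U U' : Finset ℚˣ) (h : U' ⊆ U) (p : ℕ) (hp : Gd U p) : Gd U' p :=
  ⟨hp.1, fun q h1 h2 h3 => hp.2 q h1 h2
    (h3.trans (Finset.sum_le_sum_of_subset h))⟩

lemma Gd_cls (U : Finset ℚˣ) : Cls (Gd U) := by
  refine ⟨4, siz U, by norm_num, by norm_num, fun y hy _ => ?_⟩
  have hP : 0 < primorial y := primorial_pos y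
  obtain ⟨M, hM⟩ : ∃ M : ℕ, M = 4 * primorial y := ⟨_, rfl⟩
  have hM4 : 4 ≤ M := by rw [hM]; omega
  rw [← hM]
  refine ⟨M - 1, ?_, ?_, ?_⟩
  · have h1 : (M - 1).Coprime (M - 1 + 1) := by
      rw [Nat.coprime_self_add_right]; exact Nat.coprime_one_right _
    rwa [Nat.sub_add_cancel (by omega)] at h1
  · intro q hq hqM h3 h
    obtain ⟨t, ht⟩ := hqM
    have h1 : (q - 1) ≡ M - 1 [MOD q] := by
      apply (Nat.modEq_iff_dvd' (by
        have := Nat.le_of_dvd (by omega) (Dvd.intro t ht.symm); omega)).2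
      have : M - 1 - (q - 1) = M - q := by omega
      rw [this, ht]
      exact Nat.dvd_sub (Dvd.intro _ rfl) dvd_rfl
    have h2 : (q - 1) % q = q - 1 := Nat.mod_eq_of_lt (by omega)
    unfold Nat.ModEq at h1
    omega
  · intro p hp
    have h4 : p ≡ M - 1 [MOD 4] := hp.of_dvd (by rw [hM]; exact Dvd.intro _ rfl)
    refine ⟨?_, fun q hq h3 hqs hd => ?_⟩
    · unfold Nat.ModEq at h4
      omega
    · have hqM : q ∣ M := by
        rw [hM]
        exact (hq.dvd_primorial_iff.2 (by omega)).mul_left 4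
      have h5 : p ≡ M - 1 [MOD q] := hp.of_dvd hqM
      have hp1 : 1 ≤ p := by
        unfold Nat.ModEq at h4
        by_contra h
        have : p = 0 := by omega
        subst this
        omega
      have h6 : 1 ≡ p [MOD q] := (Nat.modEq_iff_dvd' hp1).2 hd
      have h7 : 1 ≡ M - 1 [MOD q] := h6.trans h5
      have h8 := (Nat.modEq_iff_dvd' (by omega)).1 h7
      have h9 : q ∣ 2 := by
        have : q ∣ M - (M - 1 - 1) := Nat.dvd_sub hqM h8
        have e : M - (M - 1 - 1) = 2 := by omega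
        rwa [e] at this
      have := Nat.le_of_dvd (by norm_num) h9
      omega

/-- the exceptional primes of a group of rank less than `K` are finite in number -/
lemma fin_exc {K : ℕ} (G : Set ℚˣ) (hG : RankLt K G) :
    {l : ℕ | l.Prime ∧ ∃ u ∈ G, (u : ℚ) = l}.Finite := by
  have h1 := card_cop (M := {n : ℤ | ∃ l : ℕ, l.Prime ∧ n = l}) (by
    rintro n ⟨l, hl, rfl⟩
    simpa using hl.two_le) (by
    rintro m ⟨l, hl, rfl⟩ n ⟨l', hl', rfl⟩ hne
    rw [Nat.isCoprime_iff_coprime]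
    exact (Nat.coprime_primes hl hl').2 fun h => hne (by rw [h])) G hG
  have h2 : {n ∈ {n : ℤ | ∃ l : ℕ, l.Prime ∧ n = l} | ∃ u ∈ G, (u : ℚ) = n}.Finite :=
    Set.finite_of_encard_le_coe (k := K) h1.le
  refine (h2.preimage (f := fun l : ℕ => (l : ℤ))
    (fun a _ b _ h => Nat.cast_injective (R := ℤ) h)).subset ?_
  rintro l ⟨hl, u, hu, hul⟩
  refine ⟨⟨l, hl, rfl⟩, u, hu, ?_⟩
  rw [hul]
  push_cast
  rfl

/-- an odd divisor condition for the order -/
lemma half_dvd_order (p : ℕ) [Fact p.Prime] (hp4 : p % 4 = 3) (x : ZMod p) (hx : x ≠ 0)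
    (h : ∀ l : ℕ, l.Prime → 3 ≤ l → l ∣ p - 1 → x ^ ((p - 1) / l) ≠ 1) :
    (p - 1) / 2 ∣ orderOf x := by
  have ho : orderOf x ∣ p - 1 := orderOf_dvd_of_pow_eq_one (ZMod.pow_card_sub_one_eq_one hx)
  obtain ⟨t, ht⟩ := ho
  have hp1 : 0 < p - 1 := by omega
  have ht0 : t ≠ 0 := by
    rintro rfl
    omega
  -- every odd prime does not divide `t`
  have h2 : ∀ l : ℕ, l.Prime → l ∣ t → l = 2 := by
    intro l hl hlt
    by_contra hne
    have h3 : 3 ≤ l := by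
      have := hl.two_le
      omega
    obtain ⟨s, rfl⟩ := hlt
    refine h l hl h3 (ht ▸ (Dvd.intro s rfl).mul_left _) ?_
    have e : (p - 1) / l = orderOf x * s := by
      rw [ht]
      apply Nat.div_eq_of_eq_mul_right hl.pos
      ring
    rw [e, pow_mul, pow_orderOf_eq_one, one_pow]
  have h4 : ¬ 4 ∣ t := by
    intro h4
    have : 4 ∣ p - 1 := ht ▸ h4.mul_left _
    omega
  -- so `t = 1` or `t = 2`
  have h5 : t ∣ 2 := by
    have h6 : t = 2 ^ t.factorization 2 := by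
      apply Nat.eq_pow_of_factorization_eq_single ht0
      ext q
      by_cases hq : q = 2
      · subst hq; simp
      · rw [Finsupp.single_apply, if_neg (fun h => hq h.symm)]
        by_cases hqp : q.Prime
        · exact Nat.factorization_eq_zero_of_not_dvd fun h => hq (h2 q hqp h)
        · exact Nat.factorization_eq_zero_of_not_prime _ hqp
    have h7 : t.factorization 2 ≤ 1 := by
      by_contra hcon
      apply h4
      rw [h6]
      calc (4 : ℕ) = 2 ^ 2 := by norm_num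
        _ ∣ 2 ^ t.factorization 2 := pow_dvd_pow 2 (by omega)
    rw [h6]
    calc 2 ^ t.factorization 2 ∣ 2 ^ 1 := pow_dvd_pow 2 h7
      _ = 2 := by norm_num
  obtain ⟨s, hs⟩ := h5
  have h8 : (p - 1) / 2 * 2 = p - 1 := by omega
  refine ⟨s, ?_⟩
  have h9 : orderOf x * t * s = (p - 1) / 2 * s * t * 1 * 1 → True := fun _ => trivial
  have h10 : orderOf x * 2 = (p - 1) * s := by
    rw [hs]
    rw [ht]
    ring
  have h11 : orderOf x * 2 = (p - 1) / 2 * s * 2 := by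
    rw [h10]
    conv_lhs => rw [← h8]
    ring
  exact Nat.eq_of_mul_eq_mul_right (by norm_num) h11

/-- **The arithmetical input.** -/
theorem prim : ∃ E : Finset ℕ, ∀ (F : Finset ℕ) (B : ℕ), (∀ l ∈ F, l.Prime ∧ l ∉ E) →
    ∀ k : ℕ, ∃ D : ℕ, ∀ A : ℕ, ∃ a d : ℕ, A ≤ a ∧ 0 < d ∧ (d : ℝ) ≤ Real.log a ^ D ∧
      ∀ j < k, A < a + j * d ∧ (a + j * d).Prime ∧ (a + j * d) % 4 = 3 ∧
        (∀ q : ℕ, q.Prime → 3 ≤ q → q ≤ B → ¬ q ∣ a + j * d - 1) ∧
        ∀ l ∈ F, ((l : ℕ) : ZMod (a + j * d)) ≠ 0 ∧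
          (a + j * d - 1) / 2 ∣ orderOf ((l : ℕ) : ZMod (a + j * d)) := by
  classical
  obtain ⟨K, -, hE⟩ := engine
  obtain ⟨G, hG1, hG2⟩ := hE Gd Gd_mono Gd_cls
  have hfin : {l : ℕ | ∃ i, l.Prime ∧ ∃ u ∈ (G i : Set ℚˣ), (u : ℚ) = l}.Finite := by
    have h1 : {l : ℕ | ∃ i, l.Prime ∧ ∃ u ∈ (G i : Set ℚˣ), (u : ℚ) = l} =
        ⋃ i, {l : ℕ | l.Prime ∧ ∃ u ∈ (G i : Set ℚˣ), (u : ℚ) = l} := by
      ext l; simp
    rw [h1]
    exact Set.finite_iUnion fun i => fin_exc _ (hG1 i)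
  refine ⟨hfin.toFinset, fun F B hF k => ?_⟩
  -- units for natural numbers
  obtain ⟨v, hv⟩ : ∃ v : ℕ → ℚˣ, ∀ n, n ≠ 0 → (v n : ℚ) = n := by
    refine ⟨fun n => if h : n ≠ 0 then Units.mk0 (n : ℚ) (by exact_mod_cast h) else 1, fun n hn => ?_⟩
    simp only [dif_pos hn, Units.val_mk0]
  obtain ⟨D, hD⟩ := hG2 (F.image v ∪ {v (B + 1)}) k
  refine ⟨D, fun A => ?_⟩
  obtain ⟨a, d, h1, h2, h3, h4⟩ := hD A
  refine ⟨a, d, h1, h2, h3, fun j hj => ?_⟩
  have h4' := h4 j hj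
  generalize a + j * d = p at h4' ⊢
  obtain ⟨h5, h6, hp, h7, h8⟩ := h4'
  haveI : Fact p.Prime := ⟨hp⟩
  have hB : B < siz (F.image v ∪ {v (B + 1)}) := by
    have h9 : (((v (B + 1) : ℚˣ) : ℚ).num.natAbs) ≤ siz (F.image v ∪ {v (B + 1)}) :=
      Finset.single_le_sum (f := fun u : ℚˣ => (u : ℚ).num.natAbs) (fun _ _ => Nat.zero_le _)
        (mem_union_right _ (mem_singleton_self _))
    rw [hv (B + 1) (by omega), Rat.num_natCast, Int.natAbs_natCast] at h9
    omega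
  refine ⟨h5, hp, h6.1, fun q hq hq3 hqB => h6.2 q hq hq3 (by omega), fun l hl => ?_⟩
  obtain ⟨hlp, hlE⟩ := hF l hl
  have hvl := hv l hlp.ne_zero
  have hmem : v l ∈ F.image v ∪ {v (B + 1)} := mem_union_left _ (mem_image_of_mem _ hl)
  have h9 := (Qs_mem p hp 0 (v l)).1 (h7 _ hmem)
  rw [hvl, Rat.num_natCast] at h9
  have hl0 : ((l : ℕ) : ZMod p) ≠ 0 := by
    intro h
    rw [ZMod.natCast_eq_zero_iff] at h
    exact h9.1.1 (Int.natCast_dvd_natCast.2 h)
  refine ⟨hl0, half_dvd_order p h6.1 _ hl0 fun q hq hq3 hqd hcon => ?_⟩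
  obtain ⟨i, hi⟩ := h8 q hq hq3 hqd
  have h10 : v l ∈ Qs p hp ((p - 1) / q) := by
    rw [Qs_mem, hvl, Rat.num_natCast, Rat.den_natCast]
    refine ⟨⟨h9.1.1, ?_⟩, ?_⟩
    · intro h
      exact hp.one_lt.ne' (Nat.dvd_one.1 h)
    · push_cast
      rw [hcon]
      simp
  apply hlE
  rw [Set.Finite.mem_toFinset]
  exact ⟨i, hlp, v l, hi _ hmem h10, hvl⟩

end Pool.Agent.H541.FF
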