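import Mathlib

set_option autoImplicit false

/-!
The Lucas sequences with the parameters `(X, Q)` over the polynomial ring of a commutative ring.
-/

namespace Pool.Agent.H541.FF

open Polynomial

/-- the Lucas sequence with the parameters `(X, Q)`: `U 0 = 0`, `U 1 = 1`,
`U (n + 2) = X * U (n + 1) - Q * U n`; for `Q = -1` these are the Fibonacci polynomials -/
noncomputable def U {R : Type*} [CommRing R] (Q : R) : ℕ → R[X]
  | 0 => 0
  | 1 => 1
  | n + 2 => X * U Q (n + 1) - C Q * U Q n

/-- the companion Lucas sequence with the parameters `(X, Q)`: `V 0 = 2`, `V 1 = X`,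
`V (n + 2) = X * V (n + 1) - Q * V n`; for `Q = -1` these are the Lucas polynomials -/
noncomputable def V {R : Type*} [CommRing R] (Q : R) : ℕ → R[X]
  | 0 => 2
  | 1 => X
  | n + 2 => X * V Q (n + 1) - C Q * V Q n

section ring

variable {R : Type*} [CommRing R] (Q : R)

@[simp] lemma U_zero : U Q 0 = 0 := rfl
@[simp] lemma U_one : U Q 1 = 1 := rfl
lemma U_succ (n : ℕ) : U Q (n + 2) = X * U Q (n + 1) - C Q * U Q n := rfl
@[simp] lemma V_zero : V Q 0 = 2 := rfl
@[simp] lemma V_one : V Q 1 = X := rfl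
lemma V_succ (n : ℕ) : V Q (n + 2) = X * V Q (n + 1) - C Q * V Q n := rfl

lemma U_two : U Q 2 = X := by rw [U_succ]; simp

/-- the values at `α + β` for `α β = Q` -/
lemma U_eval {A : Type*} [CommRing A] [Algebra R A] (a b : A) (h : a * b = algebraMap R A Q) :
    ∀ n : ℕ, (a - b) * aeval (a + b) (U Q n) = a ^ n - b ^ n := by
  intro n
  induction n using Nat.twoStepInduction with
  | zero => simp
  | one => simp
  | more n h1 h2 =>
    rw [U_succ]
    simp only [map_sub, map_mul, aeval_X, aeval_C, ← h]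
    linear_combination (a + b) * h2 - (a * b) * h1

lemma V_eval {A : Type*} [CommRing A] [Algebra R A] (a b : A) (h : a * b = algebraMap R A Q) :
    ∀ n : ℕ, aeval (a + b) (V Q n) = a ^ n + b ^ n := by
  intro n
  induction n using Nat.twoStepInduction with
  | zero =>
    simp only [V_zero, pow_zero]
    rw [show (2 : R[X]) = ((2 : ℕ) : R[X]) by norm_num, map_natCast]
    norm_num
  | one => simp
  | more n h1 h2 =>
    rw [V_succ]
    simp only [map_sub, map_mul, aeval_X, aeval_C, ← h]
    rw [h1, h2]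
    ring

/-- the addition formula -/
lemma U_add (m : ℕ) : ∀ n : ℕ, U Q (m + n + 1) = U Q (m + 1) * U Q (n + 1) - C Q * (U Q m * U Q n) := by
  intro n
  induction n using Nat.twoStepInduction with
  | zero => simp
  | one =>
    rw [show m + 1 + 1 = m + 2 by ring, U_succ, show (1 : ℕ) + 1 = 2 by norm_num, U_two]
    simp
    ring
  | more n h1 h2 =>
    rw [show m + (n + 2) + 1 = (m + n + 1) + 2 by ring, U_succ, show m + n + 1 + 1 = m + (n + 1) + 1 by ring,
      h2, h1, show n + 2 + 1 = (n + 1) + 2 by ring, U_succ Q (n + 1), U_succ Q n]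
    ring

lemma U_odd (m : ℕ) : U Q (2 * m + 1) = U Q (m + 1) ^ 2 - C Q * U Q m ^ 2 := by
  rw [show 2 * m + 1 = m + m + 1 by ring, U_add]
  ring

lemma U_even (m : ℕ) : U Q (2 * (m + 1)) = U Q (m + 1) * (U Q (m + 2) - C Q * U Q m) := by
  rw [show 2 * (m + 1) = (m + 1) + m + 1 by ring, U_add]
  ring

lemma U_dvd (a b : ℕ) : U Q a ∣ U Q (a * b) := by
  rcases a with _ | a
  · simp
  induction b with
  | zero => simp
  | succ b ih =>
    rw [show (a + 1) * (b + 1) = (a + 1) * b + a + 1 by ring, U_add]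
    exact dvd_sub (dvd_mul_left _ _) ((ih.mul_right _).mul_left _)

lemma V_disc (n : ℕ) : V Q (n + 1) ^ 2 - X * V Q (n + 1) * V Q n + C Q * V Q n ^ 2 =
    C Q ^ n * (4 * C Q - X ^ 2) := by
  induction n with
  | zero => simp; ring
  | succ n ih =>
    rw [show n + 1 + 1 = n + 2 by ring, V_succ]
    linear_combination C Q * ih

lemma V_dbl (n : ℕ) : V Q (2 * n) = V Q n ^ 2 - 2 * C Q ^ n ∧
    V Q (2 * n + 1) = V Q (n + 1) * V Q n - C Q ^ n * X := by
  induction n with
  | zero => simp; constructor <;> ring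
  | succ n ih =>
    obtain ⟨h1, h2⟩ := ih
    have h3 := V_disc Q n
    have h4 : V Q (2 * (n + 1)) = V Q (n + 1) ^ 2 - 2 * C Q ^ (n + 1) := by
      rw [show 2 * (n + 1) = 2 * n + 2 by ring, V_succ, h1, h2]
      linear_combination -h3
    refine ⟨h4, ?_⟩
    rw [show 2 * (n + 1) + 1 = (2 * n + 1) + 2 by ring, V_succ, show 2 * n + 1 + 1 = 2 * (n + 1) by ring,
      h4, h2, show n + 1 + 1 = n + 2 by ring, V_succ]
    ring

lemma V_shift (n : ℕ) : ∀ m : ℕ, V Q (m + 2 * n) = V Q (m + n) * V Q n - C Q ^ n * V Q m := by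
  intro m
  induction m using Nat.twoStepInduction with
  | zero =>
    rw [Nat.zero_add, Nat.zero_add, (V_dbl Q n).1, V_zero]
    ring
  | one =>
    rw [show 1 + 2 * n = 2 * n + 1 by ring, show 1 + n = n + 1 by ring, (V_dbl Q n).2, V_one]
  | more m h1 h2 =>
    rw [show m + 2 + 2 * n = (m + 2 * n) + 2 by ring, V_succ, show m + 2 * n + 1 = m + 1 + 2 * n by ring,
      h2, h1, show m + 2 + n = (m + n) + 2 by ring, V_succ Q (m + n), V_succ Q m,
      show m + n + 1 = m + 1 + n by ring]
    ring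

lemma V_dvd (a b : ℕ) : V Q a ∣ V Q (a * (2 * b + 1)) := by
  induction b with
  | zero => simp
  | succ b ih =>
    rw [show a * (2 * (b + 1) + 1) = a * (2 * b + 1) + 2 * a by ring, V_shift]
    exact dvd_sub (dvd_mul_left _ _) (ih.mul_left _)

lemma V_eq (m : ℕ) : V Q (m + 1) = U Q (m + 2) - C Q * U Q m := by
  induction m using Nat.twoStepInduction with
  | zero => simp [U_two]
  | one =>
    rw [V_succ, U_succ, U_two, V_zero]
    simp
    ring
  | more m h1 h2 =>
    rw [show m + 2 + 1 = (m + 1) + 2 by ring, V_succ, show m + 1 + 1 = (m + 1) + 1 by ring, h2, h1,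
      U_succ Q (m + 2), U_succ Q m]
    ring

end ring

section deg

variable {K : Type*} [CommRing K] [Nontrivial K] (Q : K)

lemma deg_step (f g : K[X]) (n : ℕ) (hf : f.Monic) (hfn : f.natDegree = n + 1) (hg : g.natDegree ≤ n) :
    (X * f - C Q * g).Monic ∧ (X * f - C Q * g).natDegree = n + 2 := by
  have h1 : (X * f).Monic := monic_X.mul hf
  have h2 : (X * f).natDegree = n + 2 := by
    rw [monic_X.natDegree_mul hf, natDegree_X, hfn]
    ring
  have h3 : (C Q * g).natDegree < (X * f).natDegree := by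
    rw [h2]
    exact ((natDegree_C_mul_le _ _).trans hg).trans_lt (by omega)
  exact ⟨h1.sub_of_left (degree_lt_degree h3), by rw [natDegree_sub_eq_left_of_natDegree_lt h3, h2]⟩

lemma U_deg (n : ℕ) : (U Q (n + 1)).Monic ∧ (U Q (n + 1)).natDegree = n := by
  induction n using Nat.twoStepInduction with
  | zero => simp
  | one => rw [show 1 + 1 = 2 by norm_num, U_two]; simp [monic_X]
  | more n h1 h2 =>
    rw [show n + 2 + 1 = (n + 1) + 2 by ring, U_succ]
    exact deg_step Q _ _ n h2.1 h2.2 h1.2.le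

lemma V_deg (n : ℕ) : (V Q (n + 1)).Monic ∧ (V Q (n + 1)).natDegree = n + 1 := by
  induction n using Nat.twoStepInduction with
  | zero => simp [monic_X]
  | one =>
    rw [V_succ]
    refine deg_step Q _ _ 0 (by simp [monic_X]) (by simp) ?_
    rw [V_zero, show (2 : K[X]) = ((2 : ℕ) : K[X]) by norm_num, natDegree_natCast]
  | more n h1 h2 =>
    rw [show n + 2 + 1 = (n + 1) + 2 by ring, V_succ]
    exact deg_step Q _ _ (n + 1) h2.1 h2.2 h1.2.le

end deg

end Pool.Agent.H541.FF
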