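import Pool.Agent.H541.FF.Irr

set_option autoImplicit false

/-!
The criterion of irreducibility for the Lucas polynomials of the first kind.
-/

namespace Pool.Agent.H541.FF

open Polynomial

section fin

variable {K : Type*} [Field K] [Finite K]

lemma add_frob {L : Type*} [Field L] [Algebra K L] (x y : L) (d : ℕ) :
    (x + y) ^ Nat.card K ^ d = x ^ Nat.card K ^ d + y ^ Nat.card K ^ d := by
  classical
  have := Fintype.ofFinite K
  induction d generalizing x y with
  | zero => simp
  | succ d ih =>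
    have h := map_add (FiniteField.frobeniusAlgHom K L) x y
    simp only [FiniteField.coe_frobeniusAlgHom] at h
    rw [Fintype.card_eq_nat_card] at h
    rw [pow_succ', pow_mul, h, ih, ← pow_mul, ← pow_mul, ← pow_succ']

/-- the Frobenius map and the roots of the polynomials -/
lemma theta_frob {L : Type*} [Field L] [Algebra K L] [Algebra.IsAlgebraic K L] (Q : K) (hQ : ¬ IsSquare Q)
    (s : L) (hs : s ^ 2 = algebraMap K L Q) (z : L) (d : ℕ) :
    (s * (z + z⁻¹)) ^ Nat.card K ^ d =
      (-1) ^ d * (s * (z ^ Nat.card K ^ d + (z ^ Nat.card K ^ d)⁻¹)) := by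
  rw [mul_pow, add_frob, sqrt_frob Q hQ s hs, inv_pow]
  ring

lemma two_ne {L : Type*} [Field L] [Algebra K L] (Q : K) (hQ : ¬ IsSquare Q) : (2 : L) ≠ 0 := by
  classical
  have := Fintype.ofFinite K
  intro h
  apply hQ
  apply FiniteField.isSquare_of_char_two
  have h2 : (2 : K) = 0 := by
    apply (algebraMap K L).injective
    rw [map_zero, ← h]
    exact map_ofNat _ 2
  have h3 : ringChar K ∣ 2 := (ringChar.spec K 2).1 (by exact_mod_cast h2)
  rcases (Nat.dvd_prime Nat.prime_two).1 h3 with h4 | h4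
  · exact absurd h4 (CharP.ringChar_ne_one)
  · exact h4

/-- the fixed elements -/
lemma theta_fix {L : Type*} [Field L] [Algebra K L] [Algebra.IsAlgebraic K L] (Q : K) (hQ : ¬ IsSquare Q)
    (s : L) (hs : s ^ 2 = algebraMap K L Q) (n : ℕ) (hn : Odd n) (z : L) (hz : z ^ n = 1) (d : ℕ) :
    (s * (z + z⁻¹)) ^ Nat.card K ^ d = s * (z + z⁻¹) ↔
      Even d ∧ (z ^ Nat.card K ^ d = z ∨ z ^ Nat.card K ^ d * z = 1) := by
  have hz0 : z ≠ 0 := by
    rintro rfl
    rw [zero_pow hn.pos.ne'] at hz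
    exact zero_ne_one hz
  have hQ0 : Q ≠ 0 := by
    rintro rfl
    exact hQ (IsSquare.zero)
  have hs0 : s ≠ 0 := by
    rintro rfl
    rw [zero_pow two_ne_zero, eq_comm, map_eq_zero] at hs
    exact hQ0 hs
  have h2 := two_ne (L := L) Q hQ
  obtain ⟨w, hw⟩ : ∃ w, w = z ^ Nat.card K ^ d := ⟨_, rfl⟩
  have hwn : w ^ n = 1 := by rw [hw, ← pow_mul, mul_comm, pow_mul, hz, one_pow]
  have hw0 : w ≠ 0 := by rw [hw]; exact pow_ne_zero _ hz0
  rw [theta_frob Q hQ s hs z, ← hw]
  rcases Nat.even_or_odd d with hd | hd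
  · rw [hd.neg_one_pow, one_mul, mul_right_inj' hs0]
    constructor
    · intro h
      refine ⟨hd, ?_⟩
      have h3 : (w - z) * (w * z - 1) = 0 := by
        field_simp at h
        linear_combination h
      rcases mul_eq_zero.1 h3 with h4 | h4
      · exact Or.inl (sub_eq_zero.1 h4)
      · exact Or.inr (sub_eq_zero.1 h4)
    · rintro ⟨-, h | h⟩
      · rw [h]
      · rw [eq_inv_of_mul_eq_one_left h, inv_inv, add_comm]
  · rw [hd.neg_one_pow]
    constructor
    · intro h
      exfalso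
      have h5 : -(w + w⁻¹) = z + z⁻¹ := by
        apply mul_left_cancel₀ hs0
        rw [← h]
        ring
      have h3 : (w + z) * (w * z + 1) = 0 := by
        field_simp at h5
        linear_combination -h5
      have h6 : (1 : L) = -1 → False := by
        intro h7
        apply h2
        linear_combination h7
      rcases mul_eq_zero.1 h3 with h4 | h4
      · have h8 : w = -z := by linear_combination h4
        rw [h8, hn.neg_pow, hz] at hwn
        exact h6 hwn.symm
      · have h8 : w * z = -1 := by linear_combination h4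
        have h9 : (w * z) ^ n = 1 := by rw [mul_pow, hwn, hz, one_mul]
        rw [h8, hn.neg_one_pow] at h9
        exact h6 h9.symm
    · rintro ⟨h, -⟩
      exact absurd hd (Nat.not_odd_iff_even.2 h)

/-- a root and its degree -/
lemma U_root (Q : K) (hQ : ¬ IsSquare Q) (n : ℕ) (hn : n.Prime) (hn3 : 3 ≤ n) (hnK : (n : K) ≠ 0) :
    ∃ f : K[X], Irreducible f ∧ f.Monic ∧ f ∣ U Q n ∧ ∀ d : ℕ, f.natDegree ∣ d ↔
      Even d ∧ (Nat.card K ^ d ≡ 1 [MOD n] ∨ n ∣ Nat.card K ^ d + 1) := by
  have hodd : Odd n := hn.odd_of_ne_two (by omega)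
  obtain ⟨s, hs⟩ := IsAlgClosed.exists_pow_nat_eq (algebraMap K (AlgebraicClosure K) Q) (n := 2) (by norm_num)
  have : NeZero (n : AlgebraicClosure K) := by
    refine ⟨fun h => hnK ?_⟩
    apply (algebraMap K (AlgebraicClosure K)).injective
    rw [map_zero, map_natCast]
    exact h
  obtain ⟨z, hz⟩ := HasEnoughRootsOfUnity.exists_primitiveRoot (AlgebraicClosure K) n
  have hz0 : z ≠ 0 := hz.ne_zero (by omega)
  have hQ0 : Q ≠ 0 := by
    rintro rfl
    exact hQ (IsSquare.zero)
  have hs0 : s ≠ 0 := by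
    rintro rfl
    rw [zero_pow two_ne_zero, eq_comm, map_eq_zero] at hs
    exact hQ0 hs
  have hint : IsIntegral K (s * (z + z⁻¹)) := Algebra.IsIntegral.isIntegral _
  refine ⟨minpoly K (s * (z + z⁻¹)), minpoly.irreducible hint, minpoly.monic hint, ?_, fun d => ?_⟩
  · rw [minpoly.dvd_iff]
    have h1 := U_eval Q (s * z) (s * z⁻¹) (by
      rw [← hs]
      field_simp) n
    rw [← mul_add, mul_pow, mul_pow, inv_pow, hz.pow_eq_one, inv_one, sub_self, ← mul_sub] at h1
    rcases mul_eq_zero.1 h1 with h2 | h2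
    · exfalso
      rcases mul_eq_zero.1 h2 with h3 | h3
      · exact hs0 h3
      · have h4 : z ^ 2 = 1 := by
          field_simp at h3
          linear_combination h3
        have h5 := Nat.le_of_dvd (by norm_num) (hz.dvd_of_pow_eq_one 2 h4)
        omega
    · exact h2
  · rw [deg_dvd_iff, theta_fix Q hQ s hs n hodd z hz.pow_eq_one]
    apply and_congr_right
    intro _
    have hq1 : 1 ≤ Nat.card K ^ d := Nat.one_le_pow _ _ Nat.card_pos
    apply or_congr
    · have h1 : z ^ Nat.card K ^ d = z ^ (Nat.card K ^ d - 1) * z := by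
        rw [← pow_succ, Nat.sub_add_cancel hq1]
      rw [h1, mul_eq_right₀ hz0, hz.pow_eq_one_iff_dvd, Nat.ModEq.comm, Nat.modEq_iff_dvd' hq1]
    · rw [← pow_succ, hz.pow_eq_one_iff_dvd]

omit [Finite K] in
/-- a monic divisor of full degree -/
lemma eq_of_dvd (f g : K[X]) (hf : f.Monic) (hg : g.Monic) (h : f ∣ g) (hd : g.natDegree ≤ f.natDegree) :
    f = g :=
  (Polynomial.eq_of_monic_of_dvd_of_natDegree_le hf hg h hd).symm

/-- **The criterion of irreducibility.** -/
theorem U_iff (Q : K) (n : ℕ) (hn3 : 3 ≤ n) (hnK : (n : K) ≠ 0) :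
    Irreducible (U Q n) ↔ ¬ IsSquare Q ∧ n.Prime ∧ n % 4 = 3 ∧
      (n - 1) / 2 ∣ orderOf ((Nat.card K : ℕ) : ZMod n) := by
  constructor
  · intro h
    have hQ : ¬ IsSquare Q := fun hQ => U_sq Q n hn3 hQ h
    have hn := U_comp Q n hn3 h
    obtain ⟨f, hf, hfm, hfd, hfn⟩ := U_root Q hQ n hn hn3 hnK
    obtain ⟨m, rfl⟩ : ∃ m, n = m + 1 := ⟨n - 1, by omega⟩
    have hdeg : f.natDegree = m := by
      rw [← (U_deg Q m).2]
      rw [Polynomial.eq_of_monic_of_associated hfm (U_deg Q m).1 (hf.associated_of_dvd h hfd)]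
    rw [hdeg] at hfn
    have : Fact (m + 1).Prime := ⟨hn⟩
    have hodd : (m + 1) % 2 = 1 := hn.eq_two_or_odd.resolve_left (by omega)
    -- the cardinality is not divisible by `n`
    have hq0 : ((Nat.card K : ℕ) : ZMod (m + 1)) ≠ 0 := by
      intro h0
      rw [ZMod.natCast_eq_zero_iff] at h0
      have h1 := (hfn m).1 dvd_rfl
      have h2 : m + 1 ∣ Nat.card K ^ m := h0.trans (dvd_pow_self _ (by omega))
      rcases h1.2 with h3 | h3
      · have h4 := (Nat.modEq_zero_iff_dvd.2 h2).symm.trans h3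
        have h5 := (Nat.modEq_zero_iff_dvd.1 h4.symm)
        have := Nat.le_of_dvd (by norm_num) h5
        omega
      · have h4 := (Nat.dvd_add_right h2).1 h3
        have := Nat.le_of_dvd (by norm_num) h4
        omega
    -- divisors
    have key : ∀ d : ℕ, Even d → (((Nat.card K : ℕ) : ZMod (m + 1)) ^ d = 1 ∨
        ((Nat.card K : ℕ) : ZMod (m + 1)) ^ d = -1) → m ∣ d := by
      intro d hd h1
      refine (hfn d).2 ⟨hd, ?_⟩
      rcases h1 with h1 | h1
      · left
        rw [← ZMod.natCast_eq_natCast_iff]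
        push_cast
        exact h1
      · right
        rw [← ZMod.natCast_eq_zero_iff]
        push_cast
        rw [h1]
        ring
    refine ⟨hQ, hn, ?_, ?_⟩
    · by_contra h4
      have h5 : (m + 1) % 4 = 1 := by omega
      have h6 := key ((m + 1) / 2) (by rw [Nat.even_iff]; omega)
        (ZMod.pow_div_two_eq_neg_one_or_one (m + 1) hq0)
      have := Nat.le_of_dvd (by omega) h6
      omega
    · have h6 := key (2 * orderOf ((Nat.card K : ℕ) : ZMod (m + 1))) (even_two_mul _) (Or.inl (by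
        rw [mul_comm, pow_mul, pow_orderOf_eq_one, one_pow]))
      have h7 : m + 1 - 1 = 2 * (m / 2) := by omega
      have h8 : (m + 1 - 1) / 2 = m / 2 := by omega
      rw [h8]
      have h9 : 2 * (m / 2) ∣ 2 * orderOf ((Nat.card K : ℕ) : ZMod (m + 1)) := by
        rwa [show 2 * (m / 2) = m by omega]
      exact Nat.dvd_of_mul_dvd_mul_left (by norm_num) h9
  · rintro ⟨hQ, hn, hn4, hord⟩
    obtain ⟨f, hf, hfm, hfd, hfn⟩ := U_root Q hQ n hn hn3 hnK
    obtain ⟨m, rfl⟩ : ∃ m, n = m + 1 := ⟨n - 1, by omega⟩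
    have h1 := (hfn f.natDegree).1 dvd_rfl
    have h2 : ((Nat.card K : ℕ) : ZMod (m + 1)) ^ (2 * f.natDegree) = 1 := by
      rw [mul_comm, pow_mul]
      rcases h1.2 with h3 | h3
      · rw [← ZMod.natCast_eq_natCast_iff] at h3
        push_cast at h3
        rw [h3, one_pow]
      · rw [← ZMod.natCast_eq_zero_iff] at h3
        push_cast at h3
        rw [eq_neg_of_add_eq_zero_left h3]
        ring
    have h3 : (m + 1 - 1) / 2 ∣ 2 * f.natDegree := hord.trans (orderOf_dvd_of_pow_eq_one h2)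
    have hcop : Nat.Coprime ((m + 1 - 1) / 2) 2 := by
      rw [Nat.coprime_two_right, Nat.odd_iff]
      omega
    have h4 : (m + 1 - 1) / 2 ∣ f.natDegree := hcop.dvd_of_dvd_mul_left h3
    have h5 : (m + 1 - 1) / 2 * 2 ∣ f.natDegree :=
      hcop.mul_dvd_of_dvd_of_dvd h4 (even_iff_two_dvd.1 h1.1)
    have h6 : m ≤ f.natDegree := by
      have h7 := Nat.le_of_dvd hf.natDegree_pos h5
      omega
    have h7 := eq_of_dvd f _ hfm (U_deg Q m).1 hfd (by rw [(U_deg Q m).2]; exact h6)
    rw [← h7]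
    exact hf

end fin

end Pool.Agent.H541.FF
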